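import Pool.Agent.Helper43.SF.Stmts

set_option autoImplicit false

/-! Module GEO: the geometric sum over odd exponents. -/

namespace Pool.Agent.Helper43.SF

open Finset Polynomial

theorem geo_one (hC : ST_CHS) (k s : ℕ) (x : ℝ) (hx : |x| < 1) (hs : 1 ≤ s) (hk : s + 1 ≤ k) :
    ∑ r ∈ Finset.range k, (if r = 0 then 0 else ((r - 1).choose (s - 1) : ℝ) * x ^ r) =
      (x / (1 - x)) ^ s - x ^ k * ∑ t ∈ Finset.Icc 1 s, ((k - 1 - t).choose (s - t) : ℝ) *
        (1 / (1 - x)) ^ t := by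
  have hgeo : ∀ t : ℕ, 1 ≤ t → HasSum (fun n : ℕ => ((n + t - 1).choose (t - 1) : ℝ) * x ^ n)
      ((1 / (1 - x)) ^ t) := by
    intro t ht
    obtain ⟨j, rfl⟩ : ∃ j, t = j + 1 := ⟨t - 1, by omega⟩
    have h1 := hasSum_choose_mul_geometric_of_norm_lt_one (𝕜 := ℝ) j (r := x)
      (by rw [Real.norm_eq_abs]; exact hx)
    rw [one_div_pow]
    exact h1
  obtain ⟨f, hf⟩ : ∃ f : ℕ → ℝ, ∀ r, f r =
      if r = 0 then 0 else ((r - 1).choose (s - 1) : ℝ) * x ^ r := ⟨_, fun _ => rfl⟩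
  have h1 : HasSum f ((x / (1 - x)) ^ s) := by
    have h2 : HasSum (fun n => f (n + s)) (x ^ s * (1 / (1 - x)) ^ s) := by
      have h3 := (hgeo s hs).mul_left (x ^ s)
      refine h3.congr_fun ?_ |> fun h => h
      intro n
      rw [hf, if_neg (by omega)]
      ring
    rw [hasSum_nat_add_iff s] at h2
    have h3 : ∑ i ∈ Finset.range s, f i = 0 := by
      refine Finset.sum_eq_zero fun i hi => ?_
      rw [Finset.mem_range] at hi
      rw [hf]
      split_ifs with h0
      · rfl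
      · rw [Nat.choose_eq_zero_of_lt (by omega)]
        simp
    rw [h3, add_zero] at h2
    rw [div_eq_mul_one_div, mul_pow]
    exact h2
  have h2 : HasSum (fun n => f (n + k)) (x ^ k * ∑ t ∈ Finset.Icc 1 s,
      ((k - 1 - t).choose (s - t) : ℝ) * (1 / (1 - x)) ^ t) := by
    have h3 : HasSum (fun n : ℕ => x ^ k * ∑ t ∈ Finset.Icc 1 s,
        ((k - 1 - t).choose (s - t) : ℝ) * (((n + t - 1).choose (t - 1) : ℝ) * x ^ n))
        (x ^ k * ∑ t ∈ Finset.Icc 1 s,
          ((k - 1 - t).choose (s - t) : ℝ) * (1 / (1 - x)) ^ t) := by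
      refine HasSum.mul_left _ (hasSum_sum fun t ht => ?_)
      exact (hgeo t (Finset.mem_Icc.1 ht).1).mul_left _
    refine h3.congr_fun ?_ |> fun h => h
    intro n
    rw [hf, if_neg (by omega)]
    have h4 : n + k - 1 = k - 1 + n := by omega
    rw [h4, hC k s n hs hk]
    push_cast
    rw [Finset.sum_mul, Finset.mul_sum]
    refine Finset.sum_congr rfl fun t _ => ?_
    ring
  rw [hasSum_nat_add_iff k] at h2
  have h3 := h1.unique h2
  rw [h3]
  have h4 : ∑ r ∈ Finset.range k, (if r = 0 then 0 else ((r - 1).choose (s - 1) : ℝ) * x ^ r) =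
      ∑ r ∈ Finset.range k, f r := Finset.sum_congr rfl fun r _ => (hf r).symm
  rw [h4]
  ring

theorem st_GEO (hC : ST_CHS) : ST_GEO := by
  intro k s x hx0 hx1 hk hs hsk
  have h1 := geo_one hC k s x (by rw [abs_lt]; constructor <;> linarith) hs hsk
  have h2 := geo_one hC k s (-x) (by rw [abs_neg, abs_lt]; constructor <;> linarith) hs hsk
  have h3 : ∑ r ∈ (Finset.range k).filter Odd, ((r - 1).choose (s - 1) : ℝ) * x ^ r =
      (1 / 2) * (∑ r ∈ Finset.range k,
        (if r = 0 then 0 else ((r - 1).choose (s - 1) : ℝ) * x ^ r) -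
      ∑ r ∈ Finset.range k,
        (if r = 0 then 0 else ((r - 1).choose (s - 1) : ℝ) * (-x) ^ r)) := by
    rw [Finset.sum_filter, ← Finset.sum_sub_distrib, Finset.mul_sum]
    refine Finset.sum_congr rfl fun r _ => ?_
    rcases Nat.even_or_odd r with h | h
    · rw [if_neg (Nat.not_odd_iff_even.2 h), h.neg_pow]
      ring
    · rw [if_pos h, h.neg_pow, if_neg (by rintro rfl; exact absurd h (by decide)),
        if_neg (by rintro rfl; exact absurd h (by decide))]
      ring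
  rw [h3, h1, h2, hk.neg_pow]
  have h4 : (-x / (1 - -x)) ^ s = (-1) ^ s * (x / (1 + x)) ^ s := by
    rw [← mul_pow]
    congr 1
    rw [sub_neg_eq_add]
    ring
  rw [h4, sub_neg_eq_add]
  have h5 : ∑ t ∈ Finset.Icc 1 s, ((k - 1 - t).choose (s - t) : ℝ) *
        ((1 / (1 - x)) ^ t - (1 / (1 + x)) ^ t) =
      ∑ t ∈ Finset.Icc 1 s, ((k - 1 - t).choose (s - t) : ℝ) * (1 / (1 - x)) ^ t -
      ∑ t ∈ Finset.Icc 1 s, ((k - 1 - t).choose (s - t) : ℝ) * (1 / (1 + x)) ^ t := by
    rw [← Finset.sum_sub_distrib]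
    refine Finset.sum_congr rfl fun t _ => ?_
    ring
  rw [h5]
  ring

end Pool.Agent.Helper43.SF
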