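import Pool.Agent.Helper43.SF.Stmts

set_option autoImplicit false

/-! Module IND1: independence of the harmonic sums `h (2N) s`, `h N s`. -/

namespace Pool.Agent.Helper43.SF

open Finset Polynomial
open Pool.Agent.Helper43.OD (h)

/-- the rational harmonic sums -/
def ind1_h (i s : ℕ) : ℚ := ∑ n ∈ Finset.range i, 1 / ((n + 1 : ℕ) : ℚ) ^ s

theorem ind1_cast (i s : ℕ) : ((ind1_h i s : ℚ) : ℝ) = h i s := by
  unfold ind1_h h
  push_cast
  rfl

theorem ind1_pow {p : ℕ} [Fact p.Prime] (a : ℚ) (n : ℕ) :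
    padicNorm p (a ^ n) = padicNorm p a ^ n := by
  induction n with
  | zero => rw [pow_zero, pow_zero, padicNorm.one]
  | succ n ih => rw [pow_succ, pow_succ, padicNorm.mul, ih]

theorem ind1_ev (q : ℚ) : ∀ᶠ p : ℕ in Filter.atTop, p.Prime → (q = 0 ∨ padicNorm p q = 1) := by
  filter_upwards [Filter.eventually_gt_atTop (q.num.natAbs + q.den)] with p hp hpp
  have : Fact p.Prime := ⟨hpp⟩
  by_cases hq : q = 0
  · exact Or.inl hq
  right
  have h1 : padicNorm p (q.num : ℚ) = 1 := by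
    rw [padicNorm.int_eq_one_iff]
    intro h2
    have h3 := Int.natAbs_dvd_natAbs.2 h2
    rw [Int.natAbs_natCast] at h3
    have h4 := Nat.le_of_dvd (Int.natAbs_pos.2 (Rat.num_ne_zero.2 hq)) h3
    omega
  have h2 : padicNorm p (q.den : ℚ) = 1 := by
    rw [padicNorm.nat_eq_one_iff]
    intro h2
    have h4 := Nat.le_of_dvd q.den_pos h2
    omega
  rw [← Rat.num_div_den q, padicNorm.div, h1, h2, div_one]

/-- the core step: no cancellation of pole terms -/
theorem ind1_core (p : ℕ) [hp : Fact p.Prime] (I : ℚ) (hI : padicNorm p I ≤ 1) (u : ℕ → ℚ) :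
    ∀ d : ℕ, (∀ s ∈ Finset.Icc 1 d, u s = 0 ∨ padicNorm p (u s) = 1) →
    ∑ s ∈ Finset.Icc 1 d, u s / (p : ℚ) ^ s + I = 0 → ∀ s ∈ Finset.Icc 1 d, u s = 0
  | 0, _, _ => by simp
  | d + 1, hu, h => by
    have hp1 : (1 : ℚ) < p := by exact_mod_cast hp.out.one_lt
    have hp0 : (p : ℚ) ≠ 0 := by positivity
    have hterm : ∀ (s : ℕ) (a : ℚ), padicNorm p (a / (p : ℚ) ^ s) = padicNorm p a * (p : ℚ) ^ s := by
      intro s a
      rw [padicNorm.div, ind1_pow, padicNorm.padicNorm_p_of_prime, inv_pow, div_inv_eq_mul]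
    have h0 : u (d + 1) = 0 := by
      rcases hu (d + 1) (Finset.mem_Icc.2 ⟨by omega, le_rfl⟩) with h0 | h0
      · exact h0
      exfalso
      rw [Finset.sum_Icc_succ_top (by omega)] at h
      have h1 : u (d + 1) / (p : ℚ) ^ (d + 1) =
          -(∑ s ∈ Finset.Icc 1 d, u s / (p : ℚ) ^ s + I) := by linear_combination h
      have h2 : padicNorm p (∑ s ∈ Finset.Icc 1 d, u s / (p : ℚ) ^ s + I) ≤ (p : ℚ) ^ d := by
        refine (padicNorm.nonarchimedean).trans (max_le ?_ (hI.trans (one_le_pow₀ hp1.le)))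
        refine padicNorm.sum_le' ?_ (by positivity)
        intro s hs
        rw [Finset.mem_Icc] at hs
        rw [hterm]
        have h3 : padicNorm p (u s) ≤ 1 := by
          rcases hu s (Finset.mem_Icc.2 ⟨hs.1, by omega⟩) with h4 | h4
          · rw [h4, padicNorm.zero]; norm_num
          · exact h4.le
        calc padicNorm p (u s) * (p : ℚ) ^ s ≤ 1 * (p : ℚ) ^ d :=
              mul_le_mul h3 (pow_le_pow_right₀ hp1.le hs.2) (by positivity) (by norm_num)
          _ = _ := one_mul _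
      have h3 : padicNorm p (u (d + 1) / (p : ℚ) ^ (d + 1)) = (p : ℚ) ^ (d + 1) := by
        rw [hterm, h0, one_mul]
      rw [h1, padicNorm.neg] at h3
      rw [h3] at h2
      have h4 : (p : ℚ) ^ d < (p : ℚ) ^ (d + 1) := pow_lt_pow_right₀ hp1 (by omega)
      linarith
    have ih := ind1_core p I hI u d (fun s hs => hu s (by
      rw [Finset.mem_Icc] at hs ⊢; omega)) (by
      rw [Finset.sum_Icc_succ_top (by omega), h0, zero_div, add_zero] at h
      exact h)
    intro s hs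
    rw [Finset.mem_Icc] at hs
    rcases Nat.lt_or_ge s (d + 1) with h5 | h5
    · exact ih s (Finset.mem_Icc.2 ⟨hs.1, by omega⟩)
    · have : s = d + 1 := by omega
      rw [this]; exact h0

/-- integrality of short harmonic sums -/
theorem ind1_int (p : ℕ) [hp : Fact p.Prime] (M s : ℕ) (hM : M < p) :
    padicNorm p (ind1_h M s) ≤ 1 := by
  unfold ind1_h
  refine padicNorm.sum_le' ?_ zero_le_one
  intro n hn
  rw [Finset.mem_range] at hn
  have h1 : padicNorm p ((n + 1 : ℕ) : ℚ) = 1 := by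
    rw [padicNorm.nat_eq_one_iff]
    intro h2
    have := Nat.le_of_dvd (by omega) h2
    omega
  rw [padicNorm.div, ind1_pow, h1, one_pow, padicNorm.one, div_one]

theorem ind1_split (p : ℕ) [hp : Fact p.Prime] (s : ℕ) :
    ∃ e : ℚ, padicNorm p e ≤ 1 ∧ ind1_h (p + 1) s = 1 / (p : ℚ) ^ s + e := by
  obtain ⟨q, hq⟩ : ∃ q, p = q + 1 := ⟨p - 1, by have := hp.out.pos; omega⟩
  refine ⟨ind1_h (p - 1) s + 1 / ((p + 1 : ℕ) : ℚ) ^ s, ?_, ?_⟩
  · refine padicNorm.nonarchimedean.trans (max_le (ind1_int p _ s ?_) ?_)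
    · omega
    · have h1 : padicNorm p ((p + 1 : ℕ) : ℚ) = 1 := by
        rw [padicNorm.nat_eq_one_iff]
        intro h2
        have h3 := (Nat.dvd_add_right (dvd_refl p)).1 h2
        exact hp.out.one_lt.ne' (Nat.dvd_one.1 h3)
      rw [padicNorm.div, ind1_pow, h1, one_pow, padicNorm.one, div_one]
  · subst hq
    unfold ind1_h
    rw [Finset.sum_range_succ, Finset.sum_range_succ]
    simp only [Nat.add_sub_cancel]
    ring

/-- one step -/
theorem ind1_step (p : ℕ) [hp : Fact p.Prime] (N : ℕ) (z : ℕ → ℚ) (d : ℕ) (I : ℚ)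
    (hI : padicNorm p I ≤ 1) (hN : ¬ p ∣ N)
    (hz : ∀ s ∈ Finset.Icc 1 d, z s = 0 ∨ padicNorm p (z s) = 1)
    (h : ∑ s ∈ Finset.Icc 1 d, (N : ℚ) ^ s * (z s * ind1_h (p + 1) s) + I = 0) :
    ∀ s ∈ Finset.Icc 1 d, z s = 0 := by
  have hN1 : padicNorm p (N : ℚ) = 1 := (padicNorm.nat_eq_one_iff N).2 hN
  have hN0 : (N : ℚ) ≠ 0 := by
    rintro h0
    rw [h0, padicNorm.zero] at hN1
    exact zero_ne_one hN1
  choose e he1 he2 using fun s => ind1_split p s
  have hz' : ∀ s ∈ Finset.Icc 1 d, padicNorm p (z s) ≤ 1 := by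
    intro s hs
    rcases hz s hs with h4 | h4
    · rw [h4, padicNorm.zero]; norm_num
    · exact h4.le
  have key := ind1_core p (∑ s ∈ Finset.Icc 1 d, (N : ℚ) ^ s * (z s * e s) + I) (by
      refine padicNorm.nonarchimedean.trans (max_le (padicNorm.sum_le' ?_ zero_le_one) hI)
      intro s hs
      rw [padicNorm.mul, padicNorm.mul, ind1_pow, hN1, one_pow, one_mul]
      exact mul_le_one₀ (hz' s hs) (padicNorm.nonneg _) (he1 s)) (fun s => (N : ℚ) ^ s * z s) d
    (by
      intro s hs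
      rcases hz s hs with h4 | h4
      · left; rw [h4, mul_zero]
      · right
        rw [padicNorm.mul, ind1_pow, hN1, one_pow, one_mul, h4])
    (by
      rw [← add_assoc, ← Finset.sum_add_distrib, ← h]
      congr 1
      refine Finset.sum_congr rfl fun s _ => ?_
      rw [he2]
      ring)
  intro s hs
  have h5 := key s hs
  simp only [mul_eq_zero, pow_eq_zero_iff', hN0, false_and, false_or] at h5
  exact h5

/-- the rational case -/
theorem ind1_rat (n d : ℕ) (c x y : ℕ → ℚ) (H : ∀ N : ℕ, 1 ≤ N →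
    ∑ i ∈ Finset.range n, c i * (N : ℚ) ^ i + ∑ s ∈ Finset.Icc 1 d,
      (N : ℚ) ^ s * (x s * ind1_h (2 * N) s + y s * ind1_h N s) = 0) :
    ∀ s ∈ Finset.Icc 1 d, x s = 0 ∧ y s = 0 := by
  have e1 : ∀ᶠ p : ℕ in Filter.atTop, ∀ s ∈ Finset.Icc 1 d,
      p.Prime → (x s = 0 ∨ padicNorm p (x s) = 1) :=
    (Filter.eventually_all_finset _).2 fun s _ => ind1_ev (x s)
  have e2 : ∀ᶠ p : ℕ in Filter.atTop, ∀ s ∈ Finset.Icc 1 d,
      p.Prime → (y s = 0 ∨ padicNorm p (y s) = 1) :=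
    (Filter.eventually_all_finset _).2 fun s _ => ind1_ev (y s)
  have e3 : ∀ᶠ p : ℕ in Filter.atTop, ∀ i ∈ Finset.range n,
      p.Prime → (c i = 0 ∨ padicNorm p (c i) = 1) :=
    (Filter.eventually_all_finset _).2 fun s _ => ind1_ev (c s)
  obtain ⟨B, hB⟩ := Filter.eventually_atTop.1
    (((e1.and e2).and e3).and (Filter.eventually_gt_atTop 2))
  obtain ⟨p, hpB, hp⟩ := Nat.exists_infinite_primes B
  obtain ⟨⟨⟨hx, hy⟩, hc⟩, hp2⟩ := hB p hpB
  have : Fact p.Prime := ⟨hp⟩
  have hint : ∀ q : ℚ, (q = 0 ∨ padicNorm p q = 1) → padicNorm p q ≤ 1 := by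
    rintro q (h4 | h4)
    · rw [h4, padicNorm.zero]; norm_num
    · exact h4.le
  have hnat : ∀ N : ℕ, padicNorm p (N : ℚ) ≤ 1 := fun N => padicNorm.of_nat N
  have hR : ∀ N : ℕ, padicNorm p (∑ i ∈ Finset.range n, c i * (N : ℚ) ^ i) ≤ 1 := by
    intro N
    refine padicNorm.sum_le' ?_ zero_le_one
    intro i hi
    rw [padicNorm.mul, ind1_pow]
    exact mul_le_one₀ (hint _ (hc i hi hp)) (pow_nonneg (padicNorm.nonneg _) _)
      (pow_le_one₀ (padicNorm.nonneg _) (hnat N))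
  -- first step
  obtain ⟨N, hN⟩ : ∃ N, 2 * N = p + 1 := by
    have h1 := hp.eq_two_or_odd'
    rcases h1 with h1 | ⟨m, hm⟩
    · omega
    · exact ⟨m + 1, by omega⟩
  have hx0 : ∀ s ∈ Finset.Icc 1 d, x s = 0 := by
    refine ind1_step p N x d (∑ i ∈ Finset.range n, c i * (N : ℚ) ^ i +
      ∑ s ∈ Finset.Icc 1 d, (N : ℚ) ^ s * (y s * ind1_h N s)) ?_ ?_ (fun s hs => hx s hs hp) ?_
    · refine padicNorm.nonarchimedean.trans (max_le (hR N) (padicNorm.sum_le' ?_ zero_le_one))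
      intro s hs
      rw [padicNorm.mul, padicNorm.mul, ind1_pow]
      exact mul_le_one₀ (pow_le_one₀ (padicNorm.nonneg _) (hnat N))
        (mul_nonneg (padicNorm.nonneg _) (padicNorm.nonneg _))
        (mul_le_one₀ (hint _ (hy s hs hp)) (padicNorm.nonneg _) (ind1_int p N s (by omega)))
    · intro h1
      have := Nat.le_of_dvd (by omega) h1
      omega
    · rw [← H N (by omega), hN, ← add_assoc, add_comm (∑ s ∈ Finset.Icc 1 d, (N : ℚ) ^ s *
        (x s * ind1_h (p + 1) s)), add_assoc, ← Finset.sum_add_distrib]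
      congr 1
      refine Finset.sum_congr rfl fun s _ => ?_
      ring
  have hy0 : ∀ s ∈ Finset.Icc 1 d, y s = 0 := by
    refine ind1_step p (p + 1) y d (∑ i ∈ Finset.range n, c i * ((p + 1 : ℕ) : ℚ) ^ i)
      (hR _) ?_ (fun s hs => hy s hs hp) ?_
    · intro h1
      have h3 := (Nat.dvd_add_right (dvd_refl p)).1 h1
      exact hp.one_lt.ne' (Nat.dvd_one.1 h3)
    · rw [← H (p + 1) (by omega), add_comm]
      congr 1
      refine Finset.sum_congr rfl fun s hs => ?_
      rw [hx0 s hs]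
      ring
  exact fun s hs => ⟨hx0 s hs, hy0 s hs⟩

theorem st_IND1 : ST_IND1 := by
  intro R d x y H
  have h1 : ∀ φ : Module.Dual ℚ ℝ, ∀ s ∈ Finset.Icc 1 d, φ (x s) = 0 ∧ φ (y s) = 0 := by
    intro φ
    have hφ : ∀ (q : ℚ) (r : ℝ), φ ((q : ℝ) * r) = q * φ r := by
      intro q r
      rw [← Rat.smul_def, map_smul, smul_eq_mul]
    refine ind1_rat (R.natDegree + 1) d (fun i => φ (R.coeff i)) (fun s => φ (x s))
      (fun s => φ (y s)) ?_
    intro N hN
    have h2 := congrArg φ (H N hN)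
    rw [map_add, map_zero, Polynomial.eval_eq_sum_range, map_sum, map_sum] at h2
    rw [← h2]
    congr 1
    · refine Finset.sum_congr rfl fun i _ => ?_
      have h3 : R.coeff i * (N : ℝ) ^ i = (((N : ℚ) ^ i : ℚ) : ℝ) * R.coeff i := by
        push_cast; ring
      rw [h3, hφ]
      ring
    · refine Finset.sum_congr rfl fun s _ => ?_
      have h3 : (N : ℝ) ^ s * (x s * h (2 * N) s + y s * h N s) =
          (((N : ℚ) ^ s * ind1_h (2 * N) s : ℚ) : ℝ) * x s +
          (((N : ℚ) ^ s * ind1_h N s : ℚ) : ℝ) * y s := by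
        rw [← ind1_cast, ← ind1_cast]
        push_cast
        ring
      rw [h3, map_add, hφ, hφ]
      ring
  have h2 : ∀ s ∈ Finset.Icc 1 d, x s = 0 ∧ y s = 0 := fun s hs =>
    ⟨(Module.forall_dual_apply_eq_zero_iff ℚ (x s)).1 fun φ => (h1 φ s hs).1,
      (Module.forall_dual_apply_eq_zero_iff ℚ (y s)).1 fun φ => (h1 φ s hs).2⟩
  refine ⟨h2, ?_⟩
  have h3 : ∀ N : ℕ, 1 ≤ N → R.eval (N : ℝ) = 0 := by
    intro N hN
    have h4 := H N hN
    rw [Finset.sum_eq_zero, add_zero] at h4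
    · exact h4
    · intro s hs
      rw [(h2 s hs).1, (h2 s hs).2]
      ring
  refine Polynomial.eq_zero_of_infinite_isRoot R ?_
  refine Set.Infinite.mono (s := Set.range fun N : ℕ => ((N + 1 : ℕ) : ℝ)) ?_
    (Set.infinite_range_of_injective ?_)
  · rintro _ ⟨N, rfl⟩
    exact h3 (N + 1) (by omega)
  · intro a b hab
    have := Nat.cast_injective hab
    omega

end Pool.Agent.Helper43.SF
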